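import Mathlib

set_option autoImplicit false

namespace Pool.Agent.Lib.P0be93d

open Cardinal Set

universe u

/-- Simultaneous choice of pairwise disjoint pairs. -/
theorem disjoint_choice {X I : Type u} (W F : Set X) (hW : ℵ₀ ≤ #W) (hI : #I ≤ #W)
    (A : I → Set X) (hA : ∀ i, #W ≤ #(A i)) (g : I → X → X) (hg : ∀ i, Function.Injective (g i))
    (hF : #F < #W) :
    ∃ x : I → X, (∀ i, x i ∈ A i) ∧ (∀ i, x i ∉ F ∧ g i (x i) ∉ F) ∧
      (∀ i j, i ≠ j → x i ≠ x j ∧ x i ≠ g j (x j) ∧ g i (x i) ≠ x j ∧ g i (x i) ≠ g j (x j)) := by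
  classical
  obtain ⟨_, hwf, hord⟩ := Cardinal.exists_ord_eq_type_lt I
  -- forbidden set
  let B : (i : I) → ((j : I) → j < i → X) → Set X := fun i y =>
    F ∪ {z | ∃ (j : I) (h : j < i), z = y j h} ∪ {z | ∃ (j : I) (h : j < i), z = g j (y j h)}
  have hB : ∀ i y, #(B i y) < #W := by
    intro i y
    have hseg : #{j // j < i} < #W := by
      have h1 : #{j // j < i} < #I := Cardinal.mk_Iio_lt i hord
      exact lt_of_lt_of_le h1 hI
    have h1 : #{z | ∃ (j : I) (h : j < i), z = y j h} ≤ #{j // j < i} := by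
      have : {z | ∃ (j : I) (h : j < i), z = y j h} = Set.range (fun j : {j // j < i} => y j.1 j.2) := by
        ext z; constructor
        · rintro ⟨j, h, rfl⟩; exact ⟨⟨j, h⟩, rfl⟩
        · rintro ⟨⟨j, h⟩, rfl⟩; exact ⟨j, h, rfl⟩
      rw [this]; exact mk_range_le
    have h2 : #{z | ∃ (j : I) (h : j < i), z = g j (y j h)} ≤ #{j // j < i} := by
      have : {z | ∃ (j : I) (h : j < i), z = g j (y j h)} =
          Set.range (fun j : {j // j < i} => g j.1 (y j.1 j.2)) := by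
        ext z; constructor
        · rintro ⟨j, h, rfl⟩; exact ⟨⟨j, h⟩, rfl⟩
        · rintro ⟨⟨j, h⟩, rfl⟩; exact ⟨j, h, rfl⟩
      rw [this]; exact mk_range_le
    calc #(B i y) ≤ #(F ∪ {z | ∃ (j : I) (h : j < i), z = y j h} : Set X) +
          #{z | ∃ (j : I) (h : j < i), z = g j (y j h)} := mk_union_le _ _
      _ ≤ (#F + #{z | ∃ (j : I) (h : j < i), z = y j h}) +
          #{z | ∃ (j : I) (h : j < i), z = g j (y j h)} := by
          gcongr; exact mk_union_le _ _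
      _ < #W := add_lt_of_lt hW (add_lt_of_lt hW hF (lt_of_le_of_lt h1 hseg))
          (lt_of_le_of_lt h2 hseg)
  have hex : ∀ i y, ∃ x, x ∈ A i ∧ x ∉ B i y ∧ g i x ∉ B i y := by
    intro i y
    by_contra hcon
    push Not at hcon
    have hsub : A i ⊆ B i y ∪ (g i) ⁻¹' (B i y) := by
      intro x hx
      by_cases hxB : x ∈ B i y
      · exact Or.inl hxB
      · exact Or.inr (hcon x hx hxB)
    have hlt : #(B i y ∪ (g i) ⁻¹' (B i y) : Set X) < #W := by
      refine lt_of_le_of_lt (mk_union_le _ _) (add_lt_of_lt hW (hB i y) ?_)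
      exact lt_of_le_of_lt (mk_preimage_of_injective _ _ (hg i)) (hB i y)
    exact absurd (lt_of_le_of_lt (mk_le_mk_of_subset hsub) hlt) (not_lt.mpr (hA i))
  choose G hG using hex
  have wf : WellFounded ((· < ·) : I → I → Prop) := hwf.wf
  let x : I → X := wf.fix (C := fun _ => X) (fun i y => G i y)
  have hx : ∀ i, x i = G i (fun j _ => x j) := fun i => wf.fix_eq _ i
  have hprop : ∀ i, x i ∈ A i ∧ x i ∉ B i (fun j _ => x j) ∧ g i (x i) ∉ B i (fun j _ => x j) := by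
    intro i
    have := hG i (fun j _ => x j)
    rw [← hx i] at this
    exact this
  have hdis : ∀ i j, j < i → x i ≠ x j ∧ x i ≠ g j (x j) ∧ g i (x i) ≠ x j ∧ g i (x i) ≠ g j (x j) := by
    intro i j hij
    obtain ⟨-, h1, h2⟩ := hprop i
    refine ⟨fun h => h1 (Or.inl (Or.inr ⟨j, hij, h⟩)), fun h => h1 (Or.inr ⟨j, hij, h⟩),
      fun h => h2 (Or.inl (Or.inr ⟨j, hij, h⟩)), fun h => h2 (Or.inr ⟨j, hij, h⟩)⟩
  refine ⟨x, fun i => (hprop i).1, fun i => ⟨fun h => (hprop i).2.1 (Or.inl (Or.inl h)),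
    fun h => (hprop i).2.2 (Or.inl (Or.inl h))⟩, fun i j hij => ?_⟩
  rcases lt_trichotomy i j with h | h | h
  · obtain ⟨h1, h2, h3, h4⟩ := hdis j i h
    exact ⟨h1.symm, h3.symm, h2.symm, h4.symm⟩
  · exact absurd h hij
  · exact hdis i j h

end Pool.Agent.Lib.P0be93d
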