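import Mathlib

set_option autoImplicit false

namespace Pool.Agent.Lib.P0be93d

open Matrix Cardinal

/-- The unit sphere `S² = {x ∈ ℝ³ : x · x = 1}`. -/
def S2 : Type := {x : Fin 3 → ℝ // x ⬝ᵥ x = 1}

/-- The orthogonal group `O(3)`. -/
abbrev O3 : Type := Matrix.orthogonalGroup (Fin 3) ℝ

/-- The rotation group `SO(3)`. -/
abbrev SO3 : Type := Matrix.specialOrthogonalGroup (Fin 3) ℝ

theorem O3.transpose_mul (A : O3) : A.1ᵀ * A.1 = 1 :=
  (Matrix.mem_orthogonalGroup_iff' (Fin 3) ℝ).mp A.2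

theorem SO3.transpose_mul (A : SO3) : A.1ᵀ * A.1 = 1 :=
  (Matrix.mem_orthogonalGroup_iff' (Fin 3) ℝ).mp (Matrix.mem_specialOrthogonalGroup_iff.mp A.2).1

theorem dot_mulVec_self (A : Matrix (Fin 3) (Fin 3) ℝ) (hA : Aᵀ * A = 1) (x : Fin 3 → ℝ) :
    (A *ᵥ x) ⬝ᵥ (A *ᵥ x) = x ⬝ᵥ x := by
  rw [Matrix.dotProduct_mulVec, Matrix.vecMul_mulVec, hA, Matrix.vecMul_one]

/-- The natural action of `O(3)` on the sphere: `A • x = A x`. -/
instance : MulAction O3 S2 where
  smul A x := ⟨A.1 *ᵥ x.1, by rw [dot_mulVec_self A.1 A.transpose_mul]; exact x.2⟩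
  one_smul x := Subtype.ext (by
    show (1 : Matrix (Fin 3) (Fin 3) ℝ) *ᵥ x.1 = x.1
    exact Matrix.one_mulVec _)
  mul_smul A B x := Subtype.ext (by
    show (A.1 * B.1) *ᵥ x.1 = A.1 *ᵥ (B.1 *ᵥ x.1)
    rw [Matrix.mulVec_mulVec])

/-- The natural action of `SO(3)` on the sphere: `A • x = A x`. -/
instance : MulAction SO3 S2 where
  smul A x := ⟨A.1 *ᵥ x.1, by rw [dot_mulVec_self A.1 A.transpose_mul]; exact x.2⟩
  one_smul x := Subtype.ext (by
    show (1 : Matrix (Fin 3) (Fin 3) ℝ) *ᵥ x.1 = x.1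
    exact Matrix.one_mulVec _)
  mul_smul A B x := Subtype.ext (by
    show (A.1 * B.1) *ᵥ x.1 = A.1 *ᵥ (B.1 *ᵥ x.1)
    rw [Matrix.mulVec_mulVec])

section General

variable (Γ : Type) {X : Type} [Group Γ] [MulAction Γ X]

/-- A colouring `c` is `Γ`-distinguishing if the identity is the only `γ ∈ Γ` with `c ∘ γ = c`. -/
def IsDistinguishing {k : ℕ} (c : X → Fin k) : Prop :=
  ∀ γ : Γ, (∀ x, c (γ • x) = c x) → γ = 1

variable (X) in
/-- The distinguishing number `D_Γ(X)`: the least `k` for which a `Γ`-distinguishing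
`k`-colouring of `X` exists. -/
noncomputable def distNumber : ℕ :=
  sInf {k : ℕ | ∃ c : X → Fin k, IsDistinguishing Γ c}

/-- The pointwise stabilizer of `W` in `Γ` is trivial. -/
def TrivialStabilizer (W : Set X) : Prop :=
  ∀ γ : Γ, (∀ x ∈ W, γ • x = x) → γ = 1

/-- The precolouring extension property `P(W, Γ)` with `k = D_Γ(X)`: every
map `c : X ∖ W → {1, …, k}` extends to a `Γ`-distinguishing `k`-colouring of `X`. -/
def ExtensionProperty (W : Set X) : Prop :=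
  ∀ c : {x : X // x ∉ W} → Fin (distNumber Γ X),
    ∃ c' : X → Fin (distNumber Γ X), (∀ x : {x : X // x ∉ W}, c' x = c x) ∧ IsDistinguishing Γ c'

end General

end Pool.Agent.Lib.P0be93d
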