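import Mathlib

set_option autoImplicit false

namespace Pool.Agent.Lib.P0be93d

open Set

variable {Γ X : Type} [Group Γ] [MulAction Γ X]

/-- Apply a word of group elements; the head of the list is applied last. -/
def wact {F : Type} (R : F → Γ) : List F → X → X
  | [], x => x
  | f :: l, x => R f • wact R l x

theorem fail_abstract (W : Set X) (R : (W → Fin 2) → Γ)
    (hinv : ∀ f (x : X), R f • (R f • x) = x)
    (hword : ∀ l : List (W → Fin 2), l.IsChain (· ≠ ·) → l ≠ [] →
      ∀ x ∈ W, ∀ y ∈ W, wact R l x ≠ y) :
    ∃ c : X → Fin 2, ∀ c' : X → Fin 2, (∀ x, x ∉ W → c' x = c x) →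
      ∀ x, c' (R (fun w => c' w) • x) = c' x := by
  classical
  let T : X → Prop := fun y => ∃ (l : List (W → Fin 2)) (g : W → Fin 2) (x : W),
    (l ++ [g]).IsChain (· ≠ ·) ∧ y = wact R (l ++ [g]) (x : X) ∧ g x = 1
  have hTW : ∀ y, T y → y ∉ W := by
    rintro y ⟨l, g, x, hl, rfl, _⟩ hy
    exact hword _ hl (by simp) x.1 x.2 _ hy rfl
  refine ⟨fun y => if T y then 1 else 0, fun c' hc' => ?_⟩
  obtain ⟨f, hf⟩ : ∃ f : W → Fin 2, f = fun w : W => c' w.1 := ⟨_, rfl⟩
  rw [← hf]
  simp only at hc'
  -- it suffices to propagate colour one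
  have key : ∀ y, c' y = 1 → c' (R f • y) = 1 := by
    intro y hy
    have hT : ∀ z, T z → c' z = 1 := by
      intro z hz
      have := hc' z (hTW z hz)
      rwa [if_pos hz] at this
    by_cases hyW : y ∈ W
    · apply hT
      exact ⟨[], f, ⟨y, hyW⟩, by simp, rfl, by rw [hf]; exact hy⟩
    · have hTy : T y := by
        by_contra hn
        have := hc' y hyW
        rw [if_neg hn, hy] at this
        exact absurd this (by decide)
      obtain ⟨l, g, x, hl, rfl, hgx⟩ := hTy
      match l, hl with
      | [], _ =>
        by_cases hgf : g = f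
        · have : R f • wact R ([] ++ [g]) (x : X) = x := by
            rw [hgf]; exact hinv f x
          rw [this]
          rw [hgf, hf] at hgx
          exact hgx
        · apply hT
          refine ⟨[f], g, x, ?_, rfl, hgx⟩
          simp only [List.cons_append, List.nil_append, List.isChain_cons_cons, List.isChain_singleton,
            and_true]
          exact fun h => hgf h.symm
      | h :: l', hl =>
        by_cases hhf : h = f
        · have : R f • wact R (h :: l' ++ [g]) (x : X) = wact R (l' ++ [g]) (x : X) := by
            rw [hhf]; exact hinv f _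
          rw [this]
          apply hT
          exact ⟨l', g, x, List.IsChain.tail hl, rfl, hgx⟩
        · apply hT
          refine ⟨f :: h :: l', g, x, ?_, rfl, hgx⟩
          simp only [List.cons_append, List.isChain_cons_cons]
          exact ⟨fun h' => hhf h'.symm, hl⟩
  intro x
  have h2 : ∀ a b : Fin 2, (a = 1 → b = 1) → (b = 1 → a = 1) → b = a := by decide
  apply h2
  · exact key x
  · intro h
    have := key _ h
    rwa [hinv] at this

end Pool.Agent.Lib.P0be93d
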