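import Mathlib

set_option autoImplicit false

namespace Pool.Agent.Lib.P0be93d

open Cardinal Matrix Polynomial

/-- A set of fewer than continuum many reals generates a field over which the reals have
a transcendence basis of size continuum. -/
theorem exists_indep_family (S : Set ℝ) (hS : #S < 𝔠) (F : Type) (hF : #F ≤ 𝔠) :
    ∃ g : Option F → ℝ, AlgebraicIndependent (IntermediateField.adjoin ℚ S) g := by
  set K := IntermediateField.adjoin ℚ S with hK
  have hKc : #K < 𝔠 := by
    refine lt_of_le_of_lt (IntermediateField.cardinalMk_adjoin_le ℚ S) ?_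
    refine max_lt (max_lt ?_ hS) aleph0_lt_continuum
    rw [Cardinal.mkRat]
    exact aleph0_lt_continuum
  obtain ⟨s, hs⟩ := exists_isTranscendenceBasis K ℝ
  have hscard : 𝔠 ≤ #s := by
    by_contra hcon
    push Not at hcon
    have halg : Algebra.IsAlgebraic (Algebra.adjoin K (Set.range ((↑) : s → ℝ))) ℝ := hs.isAlgebraic
    have h1 := Algebra.IsAlgebraic.cardinalMk_le_max (Algebra.adjoin K (Set.range ((↑) : s → ℝ))) ℝ
    have h2 : #(Algebra.adjoin K (Set.range ((↑) : s → ℝ))) ≤
        #K ⊔ #(Set.range ((↑) : s → ℝ)) ⊔ ℵ₀ := Algebra.cardinalMk_adjoin_le K _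
    have h3 : #(Set.range ((↑) : s → ℝ)) = #s := by rw [Subtype.range_coe]
    rw [h3] at h2
    have h4 : #(Algebra.adjoin K (Set.range ((↑) : s → ℝ))) < 𝔠 :=
      lt_of_le_of_lt h2 (max_lt (max_lt hKc hcon) aleph0_lt_continuum)
    rw [mk_real] at h1
    exact absurd (lt_of_le_of_lt h1 (max_lt h4 aleph0_lt_continuum)) (lt_irrefl _)
  have hO : #(Option F) ≤ #s := by
    rw [mk_option]
    refine le_trans ?_ hscard
    exact add_le_of_le aleph0_le_continuum hF (one_le_aleph0.trans aleph0_le_continuum)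
  obtain ⟨e⟩ := Cardinal.le_def _ _ |>.mp hO
  exact ⟨fun o => (e o : ℝ), hs.1.comp e e.injective⟩

end Pool.Agent.Lib.P0be93d
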