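import Mathlib
import Pool.Agent.Lib.P0be93d.Choice

set_option autoImplicit false

namespace Pool.Agent.Lib.P0be93d

open Cardinal Set

/-- Abstract extension theorem. -/
theorem success {Γ X : Type} [Group Γ] [MulAction Γ X] (W : Set X)
    (hΓ : #Γ ≤ 𝔠) (hX : #X ≤ 𝔠) (hW : 𝔠 < 2 ^ #W)
    (hspec : #{γ : Γ // {x | x ∈ W ∧ γ • x ∈ W}.Infinite} ≤ #W)
    (huniq : ∀ γ γ' : Γ, γ ≠ 1 → γ' ≠ 1 → #{x | x ∈ W ∧ γ • x ≠ x} < #W →
      #{x | x ∈ W ∧ γ' • x ≠ x} < #W → γ = γ')
    (hstab : ∀ γ : Γ, (∀ x ∈ W, γ • x = x) → γ = 1)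
    (c : X → Fin 2) :
    ∃ c' : X → Fin 2, (∀ x, x ∉ W → c' x = c x) ∧
      ∀ γ : Γ, (∀ x, c' (γ • x) = c' x) → γ = 1 := by
  classical
  have hWinf : ℵ₀ ≤ #W := by
    by_contra hcon
    push Not at hcon
    have h1 : (2 : Cardinal) ^ #W < ℵ₀ := power_lt_aleph0 (natCast_lt_aleph0 (n := 2)) hcon
    exact absurd (hW.trans h1) (not_lt.mpr aleph0_le_continuum)
  -- the exceptional element and its pair
  obtain ⟨E, p, hE, hp⟩ : ∃ (E : Set X) (p : Option (X × X)),
      (E.Finite ∧ ∀ q, p = some q → q.1 ∈ W ∧ q.1 ≠ q.2 ∧ q.1 ∈ E ∧ q.2 ∈ E) ∧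
      (∀ γ : Γ, γ ≠ 1 → #{x | x ∈ W ∧ γ • x ≠ x} < #W → ∃ q, p = some q ∧ q.2 = γ • q.1) := by
    by_cases h : ∃ γ : Γ, γ ≠ 1 ∧ #{x | x ∈ W ∧ γ • x ≠ x} < #W
    · obtain ⟨σ, hσ1, hσ⟩ := h
      obtain ⟨x, hxW, hx⟩ : ∃ x ∈ W, σ • x ≠ x := by
        by_contra hcon
        push Not at hcon
        exact hσ1 (hstab σ hcon)
      refine ⟨{x, σ • x}, some (x, σ • x), ⟨Set.toFinite _, ?_⟩, ?_⟩
      · rintro q hq
        obtain rfl := Option.some.inj hq
        exact ⟨hxW, hx.symm, by simp, by simp⟩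
      · intro γ hγ1 hγ
        have := huniq γ σ hγ1 hσ1 hγ hσ
        subst this
        exact ⟨_, rfl, rfl⟩
    · push Not at h
      refine ⟨∅, none, ⟨Set.finite_empty, by simp⟩, fun γ h1 h2 => ?_⟩
      exact absurd h2 (not_lt.mpr (h γ h1))
  -- index type of the transfinite choice
  let S := {γ : Γ // {x | x ∈ W ∧ γ • x ∈ W}.Infinite ∧ ¬ #{x | x ∈ W ∧ γ • x ≠ x} < #W}
  have hS : #S ≤ #W := by
    refine le_trans ?_ hspec
    exact mk_le_of_injective (f := fun s : S => (⟨s.1, s.2.1⟩ :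
      {γ : Γ // {x | x ∈ W ∧ γ • x ∈ W}.Infinite})) (by
        intro s t hst
        exact Subtype.ext (congrArg (fun z => z.1) hst))
  obtain ⟨x, hxA, hxF, hxd⟩ := disjoint_choice (I := S ⊕ W) W E hWinf
    (by
      rw [mk_sum]; simp only [lift_id]
      exact add_le_of_le hWinf hS le_rfl)
    (fun i => match i with
      | Sum.inl γ => {x | x ∈ W ∧ γ.1 • x ≠ x}
      | Sum.inr _ => W)
    (by
      intro i
      match i with
      | Sum.inl γ => exact not_lt.mp γ.2.2
      | Sum.inr _ => exact le_rfl)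
    (fun i => match i with
      | Sum.inl γ => fun x => γ.1 • x
      | Sum.inr _ => fun x => x)
    (by
      intro i
      match i with
      | Sum.inl γ => exact MulAction.injective γ.1
      | Sum.inr _ => exact Function.injective_id)
    (lt_of_lt_of_le hE.1.lt_aleph0 hWinf)
  -- pairs to be separated
  let J := S ⊕ {q : X × X // p = some q}
  let u : J → X := fun j => match j with
    | Sum.inl γ => x (Sum.inl γ)
    | Sum.inr q => q.1.1
  let v : J → X := fun j => match j with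
    | Sum.inl γ => γ.1 • x (Sum.inl γ)
    | Sum.inr q => q.1.2
  have huW : ∀ j, u j ∈ W := by
    intro j
    match j with
    | Sum.inl γ => exact (hxA (Sum.inl γ)).1
    | Sum.inr q => exact (hE.2 q.1 q.2).1
  have hvu : ∀ j j', v j ≠ u j' := by
    intro j j'
    match j, j' with
    | Sum.inl γ, Sum.inl γ' =>
      by_cases h : γ = γ'
      · subst h
        exact (hxA (Sum.inl γ)).2
      · exact (hxd (Sum.inl γ) (Sum.inl γ') (fun h' => h (Sum.inl.inj h'))).2.2.1
    | Sum.inl γ, Sum.inr q =>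
      intro h
      apply (hxF (Sum.inl γ)).2
      have h' : γ.1 • x (Sum.inl γ) = q.1.1 := h
      show γ.1 • x (Sum.inl γ) ∈ E
      rw [h']; exact (hE.2 q.1 q.2).2.2.1
    | Sum.inr q, Sum.inl γ =>
      intro h
      apply (hxF (Sum.inl γ)).1
      have h' : q.1.2 = x (Sum.inl γ) := h
      rw [← h']; exact (hE.2 q.1 q.2).2.2.2
    | Sum.inr q, Sum.inr q' =>
      have hqq : q = q' := by
        have := q.2.symm.trans q'.2
        exact Subtype.ext (Option.some.inj this)
      subst hqq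
      exact (hE.2 q.1 q.2).2.1.symm
  have huinj : ∀ j j', u j = u j' → v j = v j' := by
    intro j j'
    match j, j' with
    | Sum.inl γ, Sum.inl γ' =>
      by_cases h : γ = γ'
      · subst h; exact fun _ => rfl
      · intro h'
        exact absurd h' (hxd (Sum.inl γ) (Sum.inl γ') (fun h' => h (Sum.inl.inj h'))).1
    | Sum.inl γ, Sum.inr q =>
      intro h
      have h' : x (Sum.inl γ) = q.1.1 := h
      exact absurd (h' ▸ (hE.2 q.1 q.2).2.2.1) (hxF (Sum.inl γ)).1
    | Sum.inr q, Sum.inl γ =>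
      intro h
      have h' : q.1.1 = x (Sum.inl γ) := h
      exact absurd (h' ▸ (hE.2 q.1 q.2).2.2.1) (hxF (Sum.inl γ)).1
    | Sum.inr q, Sum.inr q' =>
      have hqq : q = q' := by
        have := q.2.symm.trans q'.2
        exact Subtype.ext (Option.some.inj this)
      subst hqq
      exact fun _ => rfl
  -- free points
  let zf : W → X := fun w => x (Sum.inr w)
  have hzW : ∀ w, zf w ∈ W := fun w => hxA (Sum.inr w)
  have hzinj : Function.Injective zf := by
    intro w w' h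
    by_contra hne
    exact (hxd (Sum.inr w) (Sum.inr w') (fun h' => hne (Sum.inr.inj h'))).1 h
  have hzu : ∀ w j, zf w ≠ u j := by
    intro w j
    match j with
    | Sum.inl γ => exact (hxd (Sum.inr w) (Sum.inl γ) (by simp)).1
    | Sum.inr q =>
      intro h
      apply (hxF (Sum.inr w)).1
      have h' : x (Sum.inr w) = q.1.1 := h
      rw [h']; exact (hE.2 q.1 q.2).2.2.1
  have hzv : ∀ w j, zf w ≠ v j := by
    intro w j
    match j with
    | Sum.inl γ => exact (hxd (Sum.inr w) (Sum.inl γ) (by simp)).2.1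
    | Sum.inr q =>
      intro h
      apply (hxF (Sum.inr w)).1
      have h' : x (Sum.inr w) = q.1.2 := h
      rw [h']; exact (hE.2 q.1 q.2).2.2.2
  -- the colourings
  let col : (W → Fin 2) → X → Fin 2 := fun h y =>
    if hy : ∃ w, y = zf w then h hy.choose
    else if hy' : ∃ j, y = u j then 1 - c (v hy'.choose) else c y
  have colz : ∀ h w, col h (zf w) = h w := by
    intro h w
    have hy : ∃ w', zf w = zf w' := ⟨w, rfl⟩
    simp only [col]
    rw [dif_pos hy]
    exact congrArg h (hzinj hy.choose_spec).symm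
  have colu : ∀ h j, col h (u j) = 1 - c (v j) := by
    intro h j
    have hy : ¬ ∃ w', u j = zf w' := fun ⟨w', hw'⟩ => hzu w' j hw'.symm
    have hy' : ∃ j', u j = u j' := ⟨j, rfl⟩
    simp only [col]
    rw [dif_neg hy, dif_pos hy', huinj j _ hy'.choose_spec]
  have colv : ∀ h j, col h (v j) = c (v j) := by
    intro h j
    have hy : ¬ ∃ w', v j = zf w' := fun ⟨w', hw'⟩ => hzv w' j hw'.symm
    have hy' : ¬ ∃ j', v j = u j' := fun ⟨j', hj'⟩ => hvu j j' hj'
    simp only [col]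
    rw [dif_neg hy, dif_neg hy']
  have colW : ∀ h y, y ∉ W → col h y = c y := by
    intro h y hy
    have hy1 : ¬ ∃ w', y = zf w' := fun ⟨w', hw'⟩ => hy (hw' ▸ hzW w')
    have hy2 : ¬ ∃ j', y = u j' := fun ⟨j', hj'⟩ => hy (hj' ▸ huW j')
    simp only [col]
    rw [dif_neg hy1, dif_neg hy2]
  have hsep : ∀ h j, col h (v j) ≠ col h (u j) := by
    intro h j
    rw [colu, colv]
    have : ∀ t : Fin 2, t ≠ 1 - t := by decide
    exact this _
  -- counting the Bad colourings
  let Bad : Set (W → Fin 2) := {h | ∃ γ : Γ, ¬ {x | x ∈ W ∧ γ • x ∈ W}.Infinite ∧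
    ∀ y, col h (γ • y) = col h y}
  have hBad : #Bad ≤ 𝔠 := by
    have hch : ∀ h : Bad, ∃ γ : Γ, ¬ {x | x ∈ W ∧ γ • x ∈ W}.Infinite ∧
      ∀ y, col h.1 (γ • y) = col h.1 y := fun h => h.2
    choose γ hγ1 hγ2 using hch
    have hfin : ∀ h : Bad, {x | (x ∈ W ∧ γ h • x ∈ W) ∧ col h.1 x = 1}.Finite := by
      intro h
      exact (Set.not_infinite.mp (hγ1 h)).subset (fun x hx => hx.1)
    let Ψ : Bad → Γ × Finset X := fun h => (γ h, (hfin h).toFinset)
    have hΨ : Function.Injective Ψ := by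
      intro h h' hh
      have h1 : γ h = γ h' := congrArg Prod.fst hh
      have h2 : (hfin h).toFinset = (hfin h').toFinset := congrArg Prod.snd hh
      apply Subtype.ext
      funext w
      by_cases hT : γ h • zf w ∈ W
      · have hiff : col h.1 (zf w) = 1 ↔ col h'.1 (zf w) = 1 := by
          have hm : zf w ∈ (hfin h).toFinset ↔ zf w ∈ (hfin h').toFinset := by rw [h2]
          rw [Set.Finite.mem_toFinset, Set.Finite.mem_toFinset] at hm
          constructor
          · intro hc; exact (hm.mp ⟨⟨hzW w, hT⟩, hc⟩).2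
          · intro hc; exact (hm.mpr ⟨⟨hzW w, h1 ▸ hT⟩, hc⟩).2
        rw [colz, colz] at hiff
        have : ∀ s t : Fin 2, (s = 1 ↔ t = 1) → s = t := by decide
        exact this _ _ hiff
      · rw [← colz h.1 w, ← colz h'.1 w, ← hγ2 h, ← hγ2 h', ← h1, colW _ _ hT, colW _ _ hT]
    calc #Bad ≤ #(Γ × Finset X) := mk_le_of_injective hΨ
      _ = #Γ * #(Finset X) := by rw [mk_prod]; simp
      _ ≤ 𝔠 * 𝔠 := by
          refine mul_le_mul' hΓ ?_
          rcases finite_or_infinite X with hfX | hiX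
          · exact (le_of_lt (lt_aleph0_of_finite (Finset X))).trans aleph0_le_continuum
          · rw [mk_finset_of_infinite]; exact hX
      _ = 𝔠 := continuum_mul_self
  obtain ⟨h, hh⟩ : ∃ h : W → Fin 2, h ∉ Bad := by
    by_contra hcon
    push Not at hcon
    have h1 : #(W → Fin 2) ≤ 𝔠 := by
      rw [← mk_univ]
      refine (mk_le_mk_of_subset ?_).trans hBad
      intro h _; exact hcon h
    rw [← power_def] at h1
    simp at h1
    exact absurd hW (not_lt.mpr h1)
  refine ⟨col h, colW h, fun γ hγ => ?_⟩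
  by_contra hne
  by_cases hinf : {x | x ∈ W ∧ γ • x ∈ W}.Infinite
  · by_cases hmv : #{x | x ∈ W ∧ γ • x ≠ x} < #W
    · obtain ⟨q, hq, hq2⟩ := hp γ hne hmv
      have := hsep h (Sum.inr ⟨q, hq⟩)
      apply this
      show col h q.2 = col h q.1
      rw [hq2]; exact hγ _
    · exact hsep h (Sum.inl ⟨γ, hinf, hmv⟩) (hγ _)
  · exact hh ⟨γ, hinf, hγ⟩

end Pool.Agent.Lib.P0be93d
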