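import Mathlib
import Pool.Agent.Lib.P0be93d.Defs
import Pool.Agent.Lib.P0be93d.Success

set_option autoImplicit false

namespace Pool.Agent.Lib.P0be93d

open Matrix Cardinal

/-- A group acting on the sphere by orthogonal matrices, faithfully, and containing all rotations. -/
structure LinearAction (Γ : Type) [Group Γ] [MulAction Γ S2] : Prop where
  mat : ∀ γ : Γ, ∃ A : Matrix (Fin 3) (Fin 3) ℝ, Aᵀ * A = 1 ∧ ∀ x : S2, (γ • x).1 = A *ᵥ x.1
  faithful : ∀ γ : Γ, (∀ x : S2, γ • x = x) → γ = 1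
  rot : ∀ A : Matrix (Fin 3) (Fin 3) ℝ, Aᵀ * A = 1 → A.det = 1 →
    ∃ γ : Γ, ∀ x : S2, (γ • x).1 = A *ᵥ x.1

theorem eq_one_of_fix (A : Matrix (Fin 3) (Fin 3) ℝ) (h : ∀ x : S2, A *ᵥ x.1 = x.1) : A = 1 := by
  ext i j
  have hj := h ⟨Pi.single j 1, by simp⟩
  have := congrFun hj i
  simp only [Matrix.mulVec_single_one] at this
  rw [Matrix.col_apply] at this
  rw [this, Matrix.one_apply, Pi.single_apply]

theorem linearAction_O3 : LinearAction O3 where
  mat A := ⟨A.1, A.transpose_mul, fun _ => rfl⟩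
  faithful A h := by
    apply Subtype.ext
    exact eq_one_of_fix A.1 (fun x => congrArg Subtype.val (h x))
  rot A hA _ := ⟨⟨A, (Matrix.mem_orthogonalGroup_iff' (Fin 3) ℝ).mpr hA⟩, fun _ => rfl⟩

theorem linearAction_SO3 : LinearAction SO3 where
  mat A := ⟨A.1, A.transpose_mul, fun _ => rfl⟩
  faithful A h := by
    apply Subtype.ext
    exact eq_one_of_fix A.1 (fun x => congrArg Subtype.val (h x))
  rot A hA hd := ⟨⟨A, Matrix.mem_specialOrthogonalGroup_iff.mpr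
    ⟨(Matrix.mem_orthogonalGroup_iff' (Fin 3) ℝ).mpr hA, hd⟩⟩, fun _ => rfl⟩

theorem det_sq (A : Matrix (Fin 3) (Fin 3) ℝ) (hA : Aᵀ * A = 1) : A.det = 1 ∨ A.det = -1 := by
  have h := congrArg Matrix.det hA
  rw [Matrix.det_mul, Matrix.det_transpose, Matrix.det_one] at h
  rcases mul_self_eq_one_iff.mp h with h | h
  · exact Or.inl h
  · exact Or.inr h

/-- `Aᵀ (Ax × Ay) = det A (x × y)`. -/
theorem transpose_cross (A : Matrix (Fin 3) (Fin 3) ℝ) (x y : Fin 3 → ℝ) :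
    Aᵀ *ᵥ (crossProduct (A *ᵥ x) (A *ᵥ y)) = A.det • crossProduct x y := by
  ext i
  fin_cases i <;>
  simp [Matrix.mulVec, dotProduct, Fin.sum_univ_three, cross_apply, Matrix.det_fin_three,
    Matrix.transpose_apply] <;> ring

theorem orth_cross (A : Matrix (Fin 3) (Fin 3) ℝ) (hA : Aᵀ * A = 1) (x y : Fin 3 → ℝ) :
    crossProduct (A *ᵥ x) (A *ᵥ y) = A.det • (A *ᵥ crossProduct x y) := by
  have hA' : A * Aᵀ = 1 := mul_eq_one_comm.mp hA
  have h := congrArg (fun v => A *ᵥ v) (transpose_cross A x y)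
  simp only [Matrix.mulVec_mulVec, hA', Matrix.one_mulVec, Matrix.mulVec_smul] at h
  exact h

theorem cross_ne_zero (x y : S2) (h1 : y.1 ≠ x.1) (h2 : y.1 ≠ -x.1) : crossProduct x.1 y.1 ≠ 0 := by
  intro h
  have hx : x.1 0 ^ 2 + x.1 1 ^ 2 + x.1 2 ^ 2 = 1 := by
    have := x.2; simp [dotProduct, Fin.sum_univ_three] at this; linarith
  have hy : y.1 0 ^ 2 + y.1 1 ^ 2 + y.1 2 ^ 2 = 1 := by
    have := y.2; simp [dotProduct, Fin.sum_univ_three] at this; linarith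
  have e0 : x.1 1 * y.1 2 - x.1 2 * y.1 1 = 0 := by
    have := congrFun h 0; simpa [cross_apply] using this
  have e1 : x.1 2 * y.1 0 - x.1 0 * y.1 2 = 0 := by
    have := congrFun h 1; simpa [cross_apply] using this
  have e2 : x.1 0 * y.1 1 - x.1 1 * y.1 0 = 0 := by
    have := congrFun h 2; simpa [cross_apply] using this
  set t := x.1 0 * y.1 0 + x.1 1 * y.1 1 + x.1 2 * y.1 2 with ht
  have ht2 : t ^ 2 = 1 := by
    have : t ^ 2 = (x.1 0 ^ 2 + x.1 1 ^ 2 + x.1 2 ^ 2) * (y.1 0 ^ 2 + y.1 1 ^ 2 + y.1 2 ^ 2)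
      - (x.1 1 * y.1 2 - x.1 2 * y.1 1) ^ 2 - (x.1 2 * y.1 0 - x.1 0 * y.1 2) ^ 2
      - (x.1 0 * y.1 1 - x.1 1 * y.1 0) ^ 2 := by rw [ht]; ring
    rw [this, hx, hy, e0, e1, e2]; ring
  have hy0 : y.1 0 = t * x.1 0 := by
    have : y.1 0 * (x.1 0 ^ 2 + x.1 1 ^ 2 + x.1 2 ^ 2) = t * x.1 0
        + x.1 2 * (x.1 2 * y.1 0 - x.1 0 * y.1 2) - x.1 1 * (x.1 0 * y.1 1 - x.1 1 * y.1 0) := by
      rw [ht]; ring
    rw [hx, e1, e2] at this; linarith
  have hy1 : y.1 1 = t * x.1 1 := by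
    have : y.1 1 * (x.1 0 ^ 2 + x.1 1 ^ 2 + x.1 2 ^ 2) = t * x.1 1
        + x.1 0 * (x.1 0 * y.1 1 - x.1 1 * y.1 0) - x.1 2 * (x.1 1 * y.1 2 - x.1 2 * y.1 1) := by
      rw [ht]; ring
    rw [hx, e0, e2] at this; linarith
  have hy2 : y.1 2 = t * x.1 2 := by
    have : y.1 2 * (x.1 0 ^ 2 + x.1 1 ^ 2 + x.1 2 ^ 2) = t * x.1 2
        + x.1 1 * (x.1 1 * y.1 2 - x.1 2 * y.1 1) - x.1 0 * (x.1 2 * y.1 0 - x.1 0 * y.1 2) := by
      rw [ht]; ring
    rw [hx, e0, e1] at this; linarith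
  have hfac : (t - 1) * (t + 1) = 0 := by linarith [ht2, show (t - 1) * (t + 1) = t ^ 2 - 1 by ring]
  rcases mul_eq_zero.mp hfac with h' | h'
  · apply h1
    have : t = 1 := by linarith
    funext i; fin_cases i
    · simp [hy0, this]
    · simp [hy1, this]
    · simp [hy2, this]
  · apply h2
    have : t = -1 := by linarith
    funext i; fin_cases i
    · simp [hy0, this]
    · simp [hy1, this]
    · simp [hy2, this]

/-- A matrix is determined by its values on `x`, `y`, `x × y`. -/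
theorem eq_of_eq_on_basis (A B : Matrix (Fin 3) (Fin 3) ℝ) (x y : Fin 3 → ℝ)
    (hxy : crossProduct x y ≠ 0) (hx : A *ᵥ x = B *ᵥ x) (hy : A *ᵥ y = B *ᵥ y)
    (hz : A *ᵥ crossProduct x y = B *ᵥ crossProduct x y) : A = B := by
  set z := crossProduct x y with hzdef
  let M : Matrix (Fin 3) (Fin 3) ℝ := (Matrix.of ![x, y, z])ᵀ
  have hdet : M.det ≠ 0 := by
    have h1 : M.det = z ⬝ᵥ z := by
      simp [M, Matrix.det_fin_three, dotProduct, Fin.sum_univ_three, hzdef, cross_apply]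
      ring
    rw [h1]
    intro h0
    exact hxy (dotProduct_self_eq_zero.mp h0)
  have hM : A * M = B * M := by
    ext i j
    have hcol : ∀ (C : Matrix (Fin 3) (Fin 3) ℝ), (C * M) i j = (C *ᵥ (fun k => M k j)) i :=
      fun C => rfl
    rw [hcol, hcol]
    fin_cases j
    · exact congrFun hx i
    · exact congrFun hy i
    · exact congrFun hz i
  have hu : IsUnit M := (Matrix.isUnit_iff_isUnit_det M).mpr (isUnit_iff_ne_zero.mpr hdet)
  exact hu.mul_left_injective hM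

section

variable {Γ : Type} [Group Γ] [MulAction Γ S2]

/-- Elements with the same determinant that agree on two non-antipodal points are equal. -/
theorem LinearAction.determined (h : LinearAction Γ) (A : Γ → Matrix (Fin 3) (Fin 3) ℝ)
    (hA : ∀ γ, (A γ)ᵀ * A γ = 1 ∧ ∀ x : S2, (γ • x).1 = A γ *ᵥ x.1) (γ γ' : Γ) (x y : S2)
    (hxy : crossProduct x.1 y.1 ≠ 0) (hx : γ • x = γ' • x) (hy : γ • y = γ' • y)
    (hd : (A γ).det = (A γ').det) : γ = γ' := by
  have hx' : A γ *ᵥ x.1 = A γ' *ᵥ x.1 := by rw [← (hA γ).2, ← (hA γ').2, hx]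
  have hy' : A γ *ᵥ y.1 = A γ' *ᵥ y.1 := by rw [← (hA γ).2, ← (hA γ').2, hy]
  have hz' : A γ *ᵥ crossProduct x.1 y.1 = A γ' *ᵥ crossProduct x.1 y.1 := by
    have h1 := orth_cross (A γ) (hA γ).1 x.1 y.1
    have h2 := orth_cross (A γ') (hA γ').1 x.1 y.1
    rw [hx', hy', h2, hd] at h1
    have hne : (A γ').det ≠ 0 := by
      rcases det_sq (A γ') (hA γ').1 with h | h <;> rw [h] <;> norm_num
    exact (smul_right_injective _ hne h1).symm
  have hAA : A γ = A γ' := eq_of_eq_on_basis _ _ _ _ hxy hx' hy' hz'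
  have : ∀ z : S2, (γ'⁻¹ * γ) • z = z := by
    intro z
    rw [mul_smul, inv_smul_eq_iff]
    apply Subtype.ext
    rw [(hA γ).2, (hA γ').2, hAA]
  have h1 := h.faithful _ this
  exact (inv_mul_eq_one.mp h1).symm

theorem mk_S2_le : #S2 ≤ 𝔠 := by
  have h1 : #S2 ≤ #(Fin 3 → ℝ) := mk_le_of_injective (f := fun x : S2 => x.1) Subtype.val_injective
  refine h1.trans ?_
  rw [← power_def, mk_real, mk_fin, power_natCast]
  exact power_nat_le aleph0_le_continuum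

theorem LinearAction.mk_le (h : LinearAction Γ) : #Γ ≤ 𝔠 := by
  choose A hA using h.mat
  have hinj : Function.Injective A := by
    intro γ γ' hAA
    have : ∀ z : S2, (γ'⁻¹ * γ) • z = z := by
      intro z
      rw [mul_smul, inv_smul_eq_iff]
      apply Subtype.ext
      rw [(hA γ).2, (hA γ').2, hAA]
    exact (inv_mul_eq_one.mp (h.faithful _ this)).symm
  refine (mk_le_of_injective hinj).trans ?_
  have : #(Matrix (Fin 3) (Fin 3) ℝ) = #(Fin 3 → Fin 3 → ℝ) := rfl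
  rw [this, ← power_def, ← power_def, mk_real, mk_fin, power_natCast, power_natCast]
  exact (pow_le_pow_left' (power_nat_le aleph0_le_continuum) 3).trans
    (power_nat_le aleph0_le_continuum)

/-- An infinite subset of the sphere contains two linearly independent points. -/
theorem exists_indep (T : Set S2) (hT : T.Infinite) :
    ∃ x ∈ T, ∃ y ∈ T, crossProduct x.1 y.1 ≠ 0 := by
  obtain ⟨x, hx⟩ := hT.nonempty
  have hfin : {y : S2 | y.1 = x.1 ∨ y.1 = -x.1}.Finite := by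
    have h1 : {y : S2 | y.1 = x.1 ∨ y.1 = -x.1} =
        (fun y : S2 => y.1) ⁻¹' ({x.1, -x.1} : Set (Fin 3 → ℝ)) := by
      ext y; simp
    rw [h1]
    exact (Set.toFinite _).preimage (Subtype.val_injective.injOn)
  obtain ⟨y, hy, hy'⟩ := (hT.sdiff hfin).nonempty
  refine ⟨x, hx, y, hy, cross_ne_zero x y (fun h => hy' (Or.inl h)) (fun h => hy' (Or.inr h))⟩

theorem LinearAction.special (h : LinearAction Γ) (W : Set S2) (hW : ℵ₀ ≤ #W) :
    #{γ : Γ // {x | x ∈ W ∧ γ • x ∈ W}.Infinite} ≤ #W := by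
  classical
  choose A hA using h.mat
  have hch : ∀ γ : {γ : Γ // {x | x ∈ W ∧ γ • x ∈ W}.Infinite},
      ∃ x y : S2, (x ∈ W ∧ γ.1 • x ∈ W) ∧ (y ∈ W ∧ γ.1 • y ∈ W) ∧ crossProduct x.1 y.1 ≠ 0 := by
    intro γ
    obtain ⟨x, hx, y, hy, hxy⟩ := exists_indep _ γ.2
    exact ⟨x, y, hx, hy, hxy⟩
  choose X Y hX hY hXY using hch
  let f : {γ : Γ // {x | x ∈ W ∧ γ • x ∈ W}.Infinite} → (W × W) × (W × W) × Bool := fun γ =>
    ((⟨X γ, (hX γ).1⟩, ⟨γ.1 • X γ, (hX γ).2⟩), (⟨Y γ, (hY γ).1⟩, ⟨γ.1 • Y γ, (hY γ).2⟩),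
      decide ((A γ.1).det = 1))
  have hf : Function.Injective f := by
    intro γ γ' hff
    simp only [f, Prod.mk.injEq, Subtype.mk.injEq, decide_eq_decide] at hff
    obtain ⟨⟨h1, h2⟩, ⟨h3, h4⟩, h5⟩ := hff
    apply Subtype.ext
    refine h.determined A hA γ.1 γ'.1 (X γ) (Y γ) (hXY γ) ?_ ?_ ?_
    · rw [h2, h1]
    · rw [h4, h3]
    · rcases det_sq _ (hA γ.1).1 with hd | hd <;> rcases det_sq _ (hA γ'.1).1 with hd' | hd'
      · rw [hd, hd']
      · rw [h5.mp hd]; exact hd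
      · exact absurd (h5.mpr hd') (by rw [hd]; norm_num)
      · rw [hd, hd']
  refine (mk_le_of_injective hf).trans ?_
  have h2 : (#Bool) ≤ #W := (by simp : #Bool = 2) ▸ (natCast_lt_aleph0 (n := 2)).le.trans hW
  simp only [mk_prod, lift_id]
  exact mul_le_of_le hW (mul_le_of_le hW le_rfl le_rfl)
    (mul_le_of_le hW (mul_le_of_le hW le_rfl le_rfl) h2)

theorem LinearAction.unique (h : LinearAction Γ) (W : Set S2) (hW : ℵ₀ ≤ #W) (γ γ' : Γ)
    (h1 : γ ≠ 1) (h1' : γ' ≠ 1) (hm : #{x | x ∈ W ∧ γ • x ≠ x} < #W)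
    (hm' : #{x | x ∈ W ∧ γ' • x ≠ x} < #W) : γ = γ' := by
  choose A hA using h.mat
  have hT : {x | x ∈ W ∧ γ • x = x ∧ γ' • x = x}.Infinite := by
    intro hfin
    have hsub : W ⊆ {x | x ∈ W ∧ γ • x = x ∧ γ' • x = x} ∪
        ({x | x ∈ W ∧ γ • x ≠ x} ∪ {x | x ∈ W ∧ γ' • x ≠ x}) := by
      intro x hx
      by_cases ha : γ • x = x
      · by_cases hb : γ' • x = x
        · exact Or.inl ⟨hx, ha, hb⟩
        · exact Or.inr (Or.inr ⟨hx, hb⟩)
      · exact Or.inr (Or.inl ⟨hx, ha⟩)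
    have h2 := mk_le_mk_of_subset hsub
    have h3 : #({x | x ∈ W ∧ γ • x = x ∧ γ' • x = x} ∪
        ({x | x ∈ W ∧ γ • x ≠ x} ∪ {x | x ∈ W ∧ γ' • x ≠ x}) : Set S2) < #W :=
      lt_of_le_of_lt (mk_union_le _ _) (add_lt_of_lt hW (lt_of_lt_of_le hfin.lt_aleph0 hW)
        (lt_of_le_of_lt (mk_union_le _ _) (add_lt_of_lt hW hm hm')))
    exact absurd h2 (not_le.mpr h3)
  obtain ⟨x, ⟨-, hx, hx'⟩, y, ⟨-, hy, hy'⟩, hxy⟩ := exists_indep _ hT
  have hone : (A 1).det = 1 := by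
    have : A 1 = 1 := eq_one_of_fix _ (fun z => by rw [← (hA 1).2, one_smul])
    rw [this, Matrix.det_one]
  have hneg : ∀ δ : Γ, δ ≠ 1 → δ • x = x → δ • y = y → (A δ).det = -1 := by
    intro δ hδ hδx hδy
    rcases det_sq _ (hA δ).1 with hd | hd
    · exact absurd (h.determined A hA δ 1 x y hxy (by rw [hδx, one_smul]) (by rw [hδy, one_smul])
        (by rw [hd, hone])) hδ
    · exact hd
  exact h.determined A hA γ γ' x y hxy (by rw [hx, hx']) (by rw [hy, hy'])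
    (by rw [hneg γ h1 hx hy, hneg γ' h1' hx' hy'])

theorem LinearAction.extend (h : LinearAction Γ) (W : Set S2)
    (hstab : ∀ γ : Γ, (∀ x ∈ W, γ • x = x) → γ = 1) (hW : 𝔠 < 2 ^ #W) (c : S2 → Fin 2) :
    ∃ c' : S2 → Fin 2, (∀ x, x ∉ W → c' x = c x) ∧ ∀ γ : Γ, (∀ x, c' (γ • x) = c' x) → γ = 1 := by
  have hWinf : ℵ₀ ≤ #W := by
    by_contra hcon
    push Not at hcon
    have h1 : (2 : Cardinal) ^ #W < ℵ₀ := power_lt_aleph0 (natCast_lt_aleph0 (n := 2)) hcon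
    exact absurd (hW.trans h1) (not_lt.mpr aleph0_le_continuum)
  exact success W h.mk_le mk_S2_le hW (h.special W hWinf)
    (fun γ γ' h1 h1' hm hm' => h.unique W hWinf γ γ' h1 h1' hm hm') hstab c

end

end Pool.Agent.Lib.P0be93d
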