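import Mathlib

set_option autoImplicit false

namespace Pool.Agent.Lib.P0be93d

open Matrix

/-- The half-turn about the line spanned by `a`. -/
noncomputable def half (a : Fin 3 → ℝ) : Matrix (Fin 3) (Fin 3) ℝ :=
  (2 / (a ⬝ᵥ a)) • Matrix.vecMulVec a a - 1

theorem half_mulVec (a x : Fin 3 → ℝ) : half a *ᵥ x = (2 * (a ⬝ᵥ x) / (a ⬝ᵥ a)) • a - x := by
  rw [half, Matrix.sub_mulVec, Matrix.smul_mulVec, Matrix.one_mulVec, Matrix.vecMulVec_mulVec]
  ext i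
  simp
  ring

theorem half_transpose (a : Fin 3 → ℝ) : (half a)ᵀ = half a := by
  rw [half, Matrix.transpose_sub, Matrix.transpose_smul, Matrix.transpose_one,
    Matrix.transpose_vecMulVec]

theorem half_half (a : Fin 3 → ℝ) (ha : a ⬝ᵥ a ≠ 0) (x : Fin 3 → ℝ) :
    half a *ᵥ (half a *ᵥ x) = x := by
  rw [half_mulVec a x, half_mulVec, dotProduct_sub, dotProduct_smul, smul_eq_mul]
  ext i
  simp only [Pi.sub_apply, Pi.smul_apply, smul_eq_mul]
  field_simp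
  ring

theorem half_mul_half (a : Fin 3 → ℝ) (ha : a ⬝ᵥ a ≠ 0) : half a * half a = 1 := by
  ext i j
  have h := congrFun (half_half a ha (Pi.single j 1)) i
  rw [Matrix.mulVec_mulVec, Matrix.mulVec_single_one, Matrix.col_apply] at h
  rw [h, Matrix.one_apply, Pi.single_apply]

theorem half_orth (a : Fin 3 → ℝ) (ha : a ⬝ᵥ a ≠ 0) : (half a)ᵀ * half a = 1 := by
  rw [half_transpose, half_mul_half a ha]

theorem half_det (a : Fin 3 → ℝ) (ha : a ⬝ᵥ a ≠ 0) : (half a).det = 1 := by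
  have h1 : (half a).det = 2 / (a ⬝ᵥ a) * (a ⬝ᵥ a) - 1 := by
    simp only [half, Matrix.det_fin_three, Matrix.sub_apply, Matrix.smul_apply,
      Matrix.vecMulVec_apply, smul_eq_mul]
    simp only [Matrix.one_apply]
    simp [dotProduct, Fin.sum_univ_three]
    ring
  rw [h1, div_mul_cancel₀ _ ha]; norm_num

/-- Apply a word of half-turns; the head of the list is applied last. -/
noncomputable def word {F : Type} (a : F → Fin 3 → ℝ) : List F → (Fin 3 → ℝ) → (Fin 3 → ℝ)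
  | [], x => x
  | f :: l, x => half (a f) *ᵥ word a l x

theorem word_lift {F P : Type} [CommRing P] (φ : P →+* ℝ) (ψ : P →+* ℂ) (p : F → Fin 3 → P)
    (hq : ∀ f, φ (p f ⬝ᵥ p f) ≠ 0) (hiso : ∀ f, ψ (p f ⬝ᵥ p f) = 0)
    (hne : ∀ f g, f ≠ g → ψ (p f ⬝ᵥ p g) ≠ 0) (X : Fin 3 → P) (hX : ∀ f, ψ (p f ⬝ᵥ X) ≠ 0)
    (l : List F) (hl : l.IsChain (· ≠ ·)) :
    ∃ (V : Fin 3 → P) (Q : P), (φ ∘ V = φ Q • word (fun f => φ ∘ p f) l (φ ∘ X)) ∧
      (l ≠ [] → ψ Q = 0) ∧ (∀ f, (∀ l', l ≠ f :: l') → ψ (p f ⬝ᵥ V) ≠ 0) ∧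
      (∀ f l', l = f :: l' → ∃ μ : ℂ, μ ≠ 0 ∧ ψ ∘ V = μ • (ψ ∘ p f)) := by
  induction l with
  | nil =>
    refine ⟨X, 1, ?_, ?_, ?_, ?_⟩
    · simp [word]
    · intro h; exact absurd rfl h
    · intro f _; exact hX f
    · intro f l' h; simp at h
  | cons f l ih =>
    obtain ⟨V', Q', h1, h2, h3, h4⟩ := ih (List.IsChain.tail hl)
    have hcoef : ψ (p f ⬝ᵥ V') ≠ 0 := by
      apply h3
      intro l' hl'
      subst hl'
      have := (List.isChain_cons_cons.mp hl).1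
      exact this rfl
    have hV : ∀ i, ψ ((2 * (p f ⬝ᵥ V')) * p f i - (p f ⬝ᵥ p f) * V' i) =
        (2 * ψ (p f ⬝ᵥ V')) * ψ (p f i) := by
      intro i
      rw [map_sub, map_mul, map_mul, map_mul, hiso, zero_mul, sub_zero, map_ofNat]
    refine ⟨fun i => (2 * (p f ⬝ᵥ V')) * p f i - (p f ⬝ᵥ p f) * V' i, (p f ⬝ᵥ p f) * Q', ?_, ?_, ?_, ?_⟩
    · funext i
      have hdot : ∀ (u v : Fin 3 → P), φ (u ⬝ᵥ v) = (φ ∘ u) ⬝ᵥ (φ ∘ v) := by
        intro u v; simp [dotProduct]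
      have hh1 : φ (V' i) = φ Q' * word (fun f => φ ∘ p f) l (φ ∘ X) i := by
        have := congrFun h1 i
        simpa using this
      have hh2 : φ (p f ⬝ᵥ V') = φ Q' * ((φ ∘ p f) ⬝ᵥ word (fun f => φ ∘ p f) l (φ ∘ X)) := by
        rw [hdot, h1, dotProduct_smul, smul_eq_mul]
      have hqq : (φ ∘ p f) ⬝ᵥ (φ ∘ p f) ≠ 0 := by rw [← hdot]; exact hq f
      simp only [Function.comp_apply, map_sub, map_mul, map_ofNat, word, Pi.smul_apply, smul_eq_mul]
      rw [half_mulVec, hh1, hh2, hdot (p f) (p f)]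
      simp only [Pi.sub_apply, Pi.smul_apply, smul_eq_mul, Function.comp_apply]
      have e1 : (fun i => φ (p f i)) = φ ∘ p f := rfl
      field_simp
    · intro _
      rw [map_mul, hiso, zero_mul]
    · intro g hg
      have hfg : g ≠ f := fun h => hg l (h ▸ rfl)
      have : ψ (p g ⬝ᵥ fun i => (2 * (p f ⬝ᵥ V')) * p f i - (p f ⬝ᵥ p f) * V' i) =
          (2 * ψ (p f ⬝ᵥ V')) * ψ (p g ⬝ᵥ p f) := by
        simp only [dotProduct, Fin.sum_univ_three, map_add, map_mul]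
        simp only [dotProduct, Fin.sum_univ_three, map_add, map_mul] at hV
        rw [hV 0, hV 1, hV 2]; ring
      rw [this]
      exact mul_ne_zero (mul_ne_zero two_ne_zero hcoef) (hne g f hfg)
    · intro g l' h
      obtain ⟨rfl, rfl⟩ := List.cons.inj h
      refine ⟨2 * ψ (p f ⬝ᵥ V'), mul_ne_zero two_ne_zero hcoef, ?_⟩
      funext i
      exact hV i

/-- Nonempty reduced words of half-turns never map lifted points to lifted points. -/
theorem word_ne {F P : Type} [CommRing P] (φ : P →+* ℝ) (hφ : Function.Injective φ)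
    (ψ : P →+* ℂ) (p : F → Fin 3 → P)
    (hq : ∀ f, φ (p f ⬝ᵥ p f) ≠ 0) (hiso : ∀ f, ψ (p f ⬝ᵥ p f) = 0)
    (hne : ∀ f g, f ≠ g → ψ (p f ⬝ᵥ p g) ≠ 0) (X : Fin 3 → P) (hX : ∀ f, ψ (p f ⬝ᵥ X) ≠ 0)
    (Y : Fin 3 → P) (l : List F) (hl : l.IsChain (· ≠ ·)) (hl0 : l ≠ []) :
    word (fun f => φ ∘ p f) l (φ ∘ X) ≠ φ ∘ Y := by
  intro h
  obtain ⟨V, Q, h1, h2, h3, h4⟩ := word_lift φ ψ p hq hiso hne X hX l hl
  have hVY : V = fun i => Q * Y i := by
    funext i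
    apply hφ
    have := congrFun h1 i
    rw [h] at this
    simpa using this
  have hψV : ψ ∘ V = 0 := by
    funext i
    simp [hVY, h2 hl0]
  match l, hl0 with
  | f :: l', _ =>
    obtain ⟨μ, hμ, hμV⟩ := h4 f l' rfl
    have hpf : ψ ∘ p f = 0 := by
      rw [hψV] at hμV
      exact (smul_eq_zero.mp hμV.symm).resolve_left hμ
    apply hX f
    have : ∀ i, ψ (p f i) = 0 := fun i => congrFun hpf i
    simp [dotProduct, Fin.sum_univ_three, this]

end Pool.Agent.Lib.P0be93d
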