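import Mathlib
import Pool.Agent.Lib.P0be93d.Defs
import Pool.Agent.Lib.P0be93d.Geometry
import Pool.Agent.Lib.P0be93d.Words
import Pool.Agent.Lib.P0be93d.Fail
import Pool.Agent.Lib.P0be93d.Field

set_option autoImplicit false

namespace Pool.Agent.Lib.P0be93d

open Cardinal Matrix Polynomial

theorem exists_halfturns (W : Set S2) (hW : 2 ^ #W ≤ 𝔠) :
    ∃ a : (W → Fin 2) → Fin 3 → ℝ, (∀ f, a f ⬝ᵥ a f ≠ 0) ∧
      ∀ l : List (W → Fin 2), l.IsChain (· ≠ ·) → l ≠ [] → ∀ x ∈ W, ∀ y ∈ W,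
        word a l x.1 ≠ y.1 := by
  classical
  -- coordinates of points of W
  let S : Set ℝ := Set.range (fun q : W × Fin 3 => q.1.1.1 q.2)
  have hWlt : #W < 𝔠 := lt_of_lt_of_le (cantor _) hW
  have hS : #S < 𝔠 := by
    refine lt_of_le_of_lt mk_range_le ?_
    rw [mk_prod]
    simp only [lift_id, mk_fin]
    exact mul_lt_of_lt aleph0_le_continuum hWlt
      (by exact_mod_cast (natCast_lt_aleph0 (n := 3)).trans aleph0_lt_continuum)
  have hF : #(W → Fin 2) ≤ 𝔠 := by
    rw [← power_def, mk_fin]; exact_mod_cast hW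
  obtain ⟨g, hg⟩ := exists_indep_family S hS (W → Fin 2) hF
  set K := IntermediateField.adjoin ℚ S with hK
  have hxK : ∀ x ∈ W, ∀ i, x.1 i ∈ K := fun x hx i =>
    IntermediateField.subset_adjoin ℚ S ⟨(⟨x, hx⟩, i), rfl⟩
  -- the coefficient ring
  let A : Subalgebra K ℝ := Algebra.adjoin K (g '' (Set.range some))
  have ht : Transcendental A (g none) := hg.transcendental_adjoin (by simp)
  let b : (W → Fin 2) → A := fun f => ⟨g (some f), Algebra.subset_adjoin ⟨some f, ⟨f, rfl⟩, rfl⟩⟩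
  let φ : A[X] →+* ℝ := (aeval (g none) : A[X] →ₐ[A] ℝ).toRingHom
  have hφinj : Function.Injective φ := transcendental_iff_injective.mp ht
  let ι : A →+* ℂ := Complex.ofRealHom.comp A.val.toRingHom
  let ψ : A[X] →+* ℂ := eval₂RingHom ι Complex.I
  have hφC : ∀ r : A, φ (C r) = (r : ℝ) := fun r => by
    show aeval (g none) (C r) = _
    rw [aeval_C]; rfl
  have hφX : φ X = g none := by
    show aeval (g none) X = _
    rw [aeval_X]
  have hψC : ∀ r : A, ψ (C r) = ((r : ℝ) : ℂ) := fun r => by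
    show eval₂ ι Complex.I (C r) = _
    rw [eval₂_C]; rfl
  have hψX : ψ X = Complex.I := by
    show eval₂ ι Complex.I X = _
    rw [eval₂_X]
  let p : (W → Fin 2) → Fin 3 → A[X] := fun f =>
    ![C (1 - b f ^ 2) * X, C (b f + b f) * X, C (1 + b f ^ 2)]
  have hdot : ∀ f h, ψ (p f ⬝ᵥ p h) = 2 * (((b f : ℝ) : ℂ) - ((b h : ℝ) : ℂ)) ^ 2 := by
    intro f h
    simp only [p, dotProduct, Fin.sum_univ_three, map_add, map_mul, Matrix.cons_val_zero,
      Matrix.cons_val_one, Matrix.cons_val_two, Matrix.head_cons, Matrix.tail_cons, hψX, hψC,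
      Matrix.cons_val]
    push_cast
    have hI : Complex.I * Complex.I = -1 := Complex.I_mul_I
    linear_combination ((1 - ((b f : ℝ) : ℂ) ^ 2) * (1 - ((b h : ℝ) : ℂ) ^ 2) +
      (2 * ((b f : ℝ) : ℂ)) * (2 * ((b h : ℝ) : ℂ))) * hI
  have hbinj : ∀ f h, f ≠ h → ((b f : ℝ) : ℂ) ≠ ((b h : ℝ) : ℂ) := by
    intro f h hfh heq
    have h1 : g (some f) = g (some h) := Complex.ofReal_injective heq
    exact hfh (Option.some.inj (hg.injective h1))
  have hq : ∀ f, φ (p f ⬝ᵥ p f) ≠ 0 := by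
    intro f
    have : φ (p f ⬝ᵥ p f) = (1 + (b f : ℝ) ^ 2) ^ 2 * (1 + g none ^ 2) := by
      simp only [p, dotProduct, Fin.sum_univ_three, map_add, map_mul, Matrix.cons_val_zero,
        Matrix.cons_val_one, hφX, hφC, Matrix.cons_val]
      push_cast
      ring
    rw [this]
    positivity
  have hiso : ∀ f, ψ (p f ⬝ᵥ p f) = 0 := by
    intro f; rw [hdot]; simp
  have hne : ∀ f h, f ≠ h → ψ (p f ⬝ᵥ p h) ≠ 0 := by
    intro f h hfh
    rw [hdot]
    exact mul_ne_zero two_ne_zero (pow_ne_zero 2 (sub_ne_zero.mpr (hbinj f h hfh)))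
  -- lifts of points of W
  let L : W → Fin 3 → A[X] := fun x i => C ⟨x.1.1 i, A.algebraMap_mem ⟨x.1.1 i, hxK x.1 x.2 i⟩⟩
  have hL : ∀ x : W, φ ∘ L x = x.1.1 := by
    intro x; funext i
    exact hφC _
  have hψL : ∀ (x : W) f, ψ (p f ⬝ᵥ L x) ≠ 0 := by
    intro x f h0
    have hval : ψ (p f ⬝ᵥ L x) =
        ((((1 - (b f : ℝ) ^ 2) * x.1.1 0 + 2 * (b f : ℝ) * x.1.1 1 : ℝ)) : ℂ) * Complex.I +
          (((1 + (b f : ℝ) ^ 2) * x.1.1 2 : ℝ) : ℂ) := by
      simp only [p, L, dotProduct, Fin.sum_univ_three, map_add, map_mul, Matrix.cons_val_zero,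
        Matrix.cons_val_one, hψX, hψC, Matrix.cons_val]
      push_cast
      ring
    rw [hval] at h0
    have him := congrArg Complex.im h0
    have hre := congrArg Complex.re h0
    simp only [Complex.add_im, Complex.mul_im, Complex.ofReal_re, Complex.ofReal_im, Complex.I_re,
      Complex.I_im, mul_one, zero_mul, add_zero, Complex.zero_im] at him
    simp only [Complex.add_re, Complex.mul_re, Complex.ofReal_re, Complex.ofReal_im, Complex.I_re,
      Complex.I_im, mul_zero, sub_zero, zero_add, Complex.zero_re, mul_one, zero_mul] at hre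
    have hx2 : x.1.1 2 = 0 := by
      rcases mul_eq_zero.mp hre with h | h
      · have : 0 < 1 + (b f : ℝ) ^ 2 := by positivity
        exact absurd h this.ne'
      · exact h
    -- b f is transcendental over K
    have htr : Transcendental K (g (some f)) := hg.transcendental (some f)
    let c0 : K := ⟨x.1.1 0, hxK x.1 x.2 0⟩
    let c1 : K := ⟨x.1.1 1, hxK x.1 x.2 1⟩
    let q : K[X] := C c0 * (1 - X ^ 2) + C (2 * c1) * X
    have hqz : aeval (g (some f)) q = 0 := by
      simp only [q, map_add, map_mul, aeval_C, map_sub, map_one, map_pow, aeval_X]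
      have e0 : (algebraMap K ℝ) c0 = x.1.1 0 := rfl
      have e1 : (algebraMap K ℝ) c1 = x.1.1 1 := rfl
      have eb : (b f : ℝ) = g (some f) := rfl
      rw [map_ofNat, e0, e1, ← eb]
      linarith
    have hq0 : q = 0 := by
      by_contra hqne
      exact htr ⟨q, hqne, hqz⟩
    have hc0 : c0 = 0 := by
      have := congrArg (fun r => coeff r 0) hq0
      simpa [q] using this
    have hc1 : c1 = 0 := by
      have := congrArg (fun r => coeff r 1) hq0
      simp [q, coeff_X, coeff_one, coeff_X_pow] at this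
      simpa using this
    have hx0 : x.1.1 0 = 0 := congrArg Subtype.val hc0
    have hx1 : x.1.1 1 = 0 := congrArg Subtype.val hc1
    have := x.1.2
    simp [dotProduct, Fin.sum_univ_three, hx0, hx1, hx2] at this
  refine ⟨fun f => φ ∘ p f, ?_, ?_⟩
  · intro f
    have : φ (p f ⬝ᵥ p f) = (φ ∘ p f) ⬝ᵥ (φ ∘ p f) := by simp [dotProduct]
    rw [← this]; exact hq f
  · intro l hl hl0 x hx y hy
    have := word_ne φ hφinj ψ p hq hiso hne (L ⟨x, hx⟩) (hψL ⟨x, hx⟩) (L ⟨y, hy⟩) l hl hl0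
    rwa [hL, hL] at this

end Pool.Agent.Lib.P0be93d
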