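import Mathlib
import Pool.Agent.Lib.P0be93d.Defs
import Pool.Agent.Lib.P0be93d.Geometry
import Pool.Agent.Lib.P0be93d.Half

set_option autoImplicit false

namespace Pool.Agent.Lib.P0be93d

open Cardinal Matrix

variable {Γ : Type} [Group Γ] [MulAction Γ S2]

theorem wact_eq_word {F : Type} (a : F → Fin 3 → ℝ) (R : F → Γ)
    (hR : ∀ f (x : S2), (R f • x).1 = half (a f) *ᵥ x.1) (l : List F) (x : S2) :
    (wact R l x).1 = word a l x.1 := by
  induction l with
  | nil => rfl
  | cons f l ih =>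
    show (R f • wact R l x).1 = half (a f) *ᵥ word a l x.1
    rw [hR, ih]

/-- The north pole. -/
def north : S2 := ⟨![0, 0, 1], by simp [dotProduct, Fin.sum_univ_three]⟩

/-- A point on the equator. -/
def east : S2 := ⟨![1, 0, 0], by simp [dotProduct, Fin.sum_univ_three]⟩

theorem LinearAction.exists_ne_one (h : LinearAction Γ) : ∃ γ : Γ, γ ≠ 1 := by
  have hn : (north.1 ⬝ᵥ north.1) ≠ 0 := by rw [north.2]; exact one_ne_zero
  obtain ⟨γ, hγ⟩ := h.rot (half north.1) (half_orth _ hn) (half_det _ hn)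
  refine ⟨γ, fun h1 => ?_⟩
  have h2 := hγ east
  rw [h1, one_smul, half_mulVec] at h2
  have := congrFun h2 0
  simp [north, east, dotProduct, Fin.sum_univ_three] at this
  norm_num at this

theorem LinearAction.fails (h : LinearAction Γ) (W : Set S2)
    (hstab : ∀ γ : Γ, (∀ x ∈ W, γ • x = x) → γ = 1) (hW : 2 ^ #W ≤ 𝔠) :
    ∃ c : S2 → Fin 2, ∀ c' : S2 → Fin 2, (∀ x, x ∉ W → c' x = c x) →
      ∃ γ : Γ, γ ≠ 1 ∧ ∀ x, c' (γ • x) = c' x := by
  obtain ⟨a, ha, hword⟩ := exists_halfturns W hW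
  have hrot : ∀ f, ∃ γ : Γ, ∀ x : S2, (γ • x).1 = half (a f) *ᵥ x.1 := fun f =>
    h.rot (half (a f)) (half_orth _ (ha f)) (half_det _ (ha f))
  choose R hR using hrot
  have hinv : ∀ f (x : S2), R f • (R f • x) = x := by
    intro f x
    apply Subtype.ext
    rw [hR, hR, half_half _ (ha f)]
  have hw : ∀ l : List (W → Fin 2), l.IsChain (· ≠ ·) → l ≠ [] → ∀ x ∈ W, ∀ y ∈ W,
      wact R l x ≠ y := by
    intro l hl hl0 x hx y hy hxy
    apply hword l hl hl0 x hx y hy
    rw [← wact_eq_word a R hR, hxy]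
  obtain ⟨c, hc⟩ := fail_abstract W R hinv hw
  have hne : W.Nonempty := by
    by_contra hcon
    obtain ⟨γ, hγ⟩ := h.exists_ne_one
    exact hγ (hstab γ (fun x hx => absurd ⟨x, hx⟩ hcon))
  obtain ⟨w, hwW⟩ := hne
  refine ⟨c, fun c' hc' => ⟨R (fun w => c' w), fun h1 => ?_, hc c' hc'⟩⟩
  apply hw [fun w => c' w] (by simp) (by simp) w hwW w hwW
  show R _ • w = w
  rw [h1, one_smul]

theorem continuum_le_S2 : 𝔠 ≤ #S2 := by
  have hf : ∀ t : ℝ, (![(1 - t ^ 2) / (1 + t ^ 2), 2 * t / (1 + t ^ 2), 0] : Fin 3 → ℝ) ⬝ᵥ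
      ![(1 - t ^ 2) / (1 + t ^ 2), 2 * t / (1 + t ^ 2), 0] = 1 := by
    intro t
    have : (1 + t ^ 2) ≠ 0 := by positivity
    simp only [dotProduct, Fin.sum_univ_three, Matrix.cons_val_zero, Matrix.cons_val_one,
      Matrix.cons_val]
    field_simp
    ring
  let f : ℝ → S2 := fun t => ⟨_, hf t⟩
  have hinj : Function.Injective f := by
    intro s t hst
    have h0 := congrFun (congrArg Subtype.val hst) 0
    have h1 := congrFun (congrArg Subtype.val hst) 1
    simp only [f, Matrix.cons_val_zero, Matrix.cons_val_one] at h0 h1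
    have hs : (1 + s ^ 2) ≠ 0 := by positivity
    have ht : (1 + t ^ 2) ≠ 0 := by positivity
    rw [div_eq_div_iff hs ht] at h0 h1
    have hsq : s ^ 2 = t ^ 2 := by nlinarith
    rw [hsq] at h1
    have := mul_right_cancel₀ ht h1
    linarith
  rw [← mk_real]
  exact mk_le_of_injective hinj

theorem LinearAction.distNumber_eq (h : LinearAction Γ) : distNumber Γ S2 = 2 := by
  have hmem : (2 : ℕ) ∈ {k : ℕ | ∃ c : S2 → Fin k, IsDistinguishing Γ c} := by
    obtain ⟨c', -, hc'⟩ := h.extend Set.univ (fun γ hγ => h.faithful γ (fun x => hγ x trivial))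
      (by rw [mk_univ]; exact lt_of_le_of_lt continuum_le_S2 (cantor _)) (fun _ => 0)
    exact ⟨c', hc'⟩
  have hle : distNumber Γ S2 ≤ 2 := Nat.sInf_le hmem
  have hge : 2 ≤ distNumber Γ S2 := by
    have h1 := Nat.sInf_mem (⟨2, hmem⟩ : {k : ℕ | ∃ c : S2 → Fin k, IsDistinguishing Γ c}.Nonempty)
    obtain ⟨c, hc⟩ := h1
    change IsDistinguishing Γ (k := distNumber Γ S2) c at hc
    by_contra hcon
    push Not at hcon
    obtain ⟨γ, hγ⟩ := h.exists_ne_one
    apply hγ
    apply hc
    intro x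
    have : Subsingleton (Fin (distNumber Γ S2)) := by
      rw [Fin.subsingleton_iff_le_one]; omega
    exact Subsingleton.elim _ _
  omega

/-- The characterisation of the precolouring extension property on the sphere. -/
theorem LinearAction.characterisation (h : LinearAction Γ) (W : Set S2)
    (hstab : TrivialStabilizer Γ W) : ExtensionProperty Γ W ↔ 𝔠 < 2 ^ #W := by
  classical
  unfold ExtensionProperty
  rw [h.distNumber_eq]
  constructor
  · intro hP
    by_contra hcon
    push Not at hcon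
    obtain ⟨c, hc⟩ := h.fails W hstab hcon
    obtain ⟨c', hc', hd⟩ := hP (fun x => c x)
    obtain ⟨γ, hγ, hγ'⟩ := hc c' (fun x hx => hc' ⟨x, hx⟩)
    exact hγ (hd γ hγ')
  · intro hW c
    obtain ⟨c', hc', hd⟩ := h.extend W hstab hW (fun x => if hx : x ∉ W then c ⟨x, hx⟩ else 0)
    refine ⟨c', fun x => ?_, hd⟩
    rw [hc' x x.2, dif_pos x.2]

theorem LinearAction.question (h : LinearAction Γ) :
    (∃ W : Set S2, ¬ W.Countable ∧ TrivialStabilizer Γ W ∧ ¬ ExtensionProperty Γ W) ↔
      (2 : Cardinal.{0}) ^ ℵ₁ = 2 ^ ℵ₀ := by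
  constructor
  · rintro ⟨W, hWc, hstab, hP⟩
    rw [h.characterisation W hstab, not_lt] at hP
    have h1 : ℵ₁ ≤ #W := by
      rw [← succ_aleph0, Order.succ_le_iff]
      by_contra hcon
      exact hWc (le_aleph0_iff_set_countable.mp (not_lt.mp hcon))
    apply le_antisymm
    · rw [two_power_aleph0]
      exact (power_le_power_left two_ne_zero h1).trans hP
    · exact power_le_power_left two_ne_zero aleph0_lt_aleph_one.le
  · intro hL
    -- a subset of size `ℵ₁` containing `north`, `east` and a third point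
    have hle : ℵ₁ ≤ #S2 := aleph_one_le_continuum.trans continuum_le_S2
    obtain ⟨W0, hW0⟩ := le_mk_iff_exists_set.mp hle
    let W : Set S2 := W0 ∪ {north, east, ⟨![0, 1, 0], by simp [dotProduct, Fin.sum_univ_three]⟩}
    have hWle : #W ≤ ℵ₁ := by
      refine (mk_union_le _ _).trans ?_
      rw [hW0]
      exact add_le_of_le (aleph0_le_aleph 1) le_rfl
        ((Set.toFinite _).lt_aleph0.le.trans (aleph0_le_aleph 1))
    have hWge : ℵ₁ ≤ #W := by
      rw [← hW0]; exact mk_le_mk_of_subset Set.subset_union_left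
    have hstab : TrivialStabilizer Γ W := by
      intro γ hγ
      obtain ⟨A, hA, hAx⟩ := h.mat γ
      have hmem : ∀ x ∈ W, A *ᵥ x.1 = x.1 := fun x hx => by rw [← hAx, hγ x hx]
      have e0 := hmem east (by simp [W])
      have e1 := hmem ⟨![0, 1, 0], by simp [dotProduct, Fin.sum_univ_three]⟩ (by simp [W])
      have e2 := hmem north (by simp [W])
      apply h.faithful
      intro x
      apply Subtype.ext
      rw [hAx]
      have hx : x.1 = x.1 0 • east.1 + x.1 1 • (![0, 1, 0] : Fin 3 → ℝ) + x.1 2 • north.1 := by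
        funext i; fin_cases i <;> simp [north, east]
      rw [hx, Matrix.mulVec_add, Matrix.mulVec_add, Matrix.mulVec_smul, Matrix.mulVec_smul,
        Matrix.mulVec_smul, e0, e1, e2]
    refine ⟨W, ?_, hstab, ?_⟩
    · intro hc
      have := le_aleph0_iff_set_countable.mpr hc
      exact absurd (hWge.trans this) (not_le.mpr aleph0_lt_aleph_one)
    · rw [h.characterisation W hstab, not_lt, ← two_power_aleph0, ← hL]
      exact power_le_power_left two_ne_zero hWle

end Pool.Agent.Lib.P0be93d
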